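import Pool.Graph.R_pool_sql_team_39128cda.H.MP_80eea4_gt.C

set_option autoImplicit false

namespace Pool.Agent.Results.MP_80eea4_gt.SmoothGerms

open IsLocalRing Function RingTheory.Sequence Matrix
open Pool.Agent.H.MP_80eea4_gt (Sop Good tr act act_mul act_diag act_one act_mem act_iff approx
  fin_quot adj_top tr_sop good_of_sop good_iff J J_le)

variable {k : Type} [Field k]

theorem diag' [IsAlgClosed k] {ι : Type} [Fintype ι] [DecidableEq ι] (A : Matrix ι ι k) {m : ℕ}
    (hm : (m : k) ≠ 0) (hA : A ^ m = 1) :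
    ∃ (P Q : Matrix ι ι k) (z : ι → k), Q * P = 1 ∧ P * A = diagonal z * P := by
  classical
  let φ : Module.End k (ι → k) := toLin' Aᵀ
  have hs : φ.IsSemisimple := Module.End.isSemisimple_of_squarefree_aeval_eq_zero
    (Polynomial.X_pow_sub_one_separable_iff.2 hm).squarefree (by
      simp only [map_sub, map_pow, Polynomial.aeval_X, map_one, φ]
      rw [← toLin'_pow, ← transpose_pow, hA, transpose_one, toLin'_one, sub_eq_zero]
      rfl)
  have hi : DirectSum.IsInternal φ.eigenspace :=
    DirectSum.isInternal_submodule_of_iSupIndep_of_iSup_eq_top φ.eigenspaces_iSupIndep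
      hs.iSup_eigenspace_eq_top
  let b0 := hi.collectedBasis fun μ => Module.Basis.ofVectorSpace k (φ.eigenspace μ)
  let e := b0.indexEquiv (Pi.basisFun k ι)
  let b := b0.reindex e
  have hb : ∀ i, Aᵀ *ᵥ b i = (e.symm i).1 • b i := fun i => by
    have := hi.collectedBasis_mem (fun μ => Module.Basis.ofVectorSpace k (φ.eigenspace μ)) (e.symm i)
    rw [Module.End.mem_eigenspace_iff] at this
    simpa [b, b0, φ] using this
  have hu : IsUnit (Matrix.of fun i => b i) :=
    linearIndependent_rows_iff_isUnit.1 b.linearIndependent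
  obtain ⟨Q, hQ⟩ := hu.exists_left_inv
  refine ⟨_, Q, fun i => (e.symm i).1, hQ, ?_⟩
  ext i j
  have := congrFun (hb i) j
  rw [diagonal_mul]
  simpa [mulVec, dotProduct, mul_apply, mul_comm] using this

variable {R : Type} [CommRing R] [IsLocalRing R] [IsNoetherianRing R] [Algebra k R]
variable {ι : Type} [Fintype ι] [DecidableEq ι]

omit [Fintype ι] [DecidableEq ι] in
/-- an endomorphism moving the coordinates inside `I` moves everything inside `I` -/
theorem fix (x : ι → R) (hx : maximalIdeal R = Ideal.span (Set.range x))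
    (hk : ∀ r : R, ∃ c : k, r - algebraMap k R c ∈ maximalIdeal R) (σ : R →ₐ[k] R)
    (σm : ∀ r ∈ maximalIdeal R, σ r ∈ maximalIdeal R) (I : Ideal R)
    (hI : ∀ i, σ (x i) - x i ∈ I) (s : R) : σ s - s ∈ I := by
  have h0 : ∀ s ∈ Algebra.adjoin k (Set.range x), σ s - s ∈ I := by
    intro s hs
    induction hs using Algebra.adjoin_induction with
    | mem y hy => obtain ⟨i, rfl⟩ := hy; exact hI i
    | algebraMap c => simp
    | add a b _ _ ha hb => convert add_mem ha hb using 1; rw [map_add]; ring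
    | mul a b _ _ ha hb =>
      convert add_mem (I.mul_mem_right (σ b) ha) (I.mul_mem_left a hb) using 1
      rw [map_mul]; ring
  have hpow : ∀ N : ℕ, ∀ r ∈ maximalIdeal R ^ N, σ r ∈ maximalIdeal R ^ N := by
    intro N r hr
    have h1 : maximalIdeal R ≤ (maximalIdeal R).comap σ := σm
    have h2 : maximalIdeal R ^ N ≤ (maximalIdeal R ^ N).comap σ :=
      (Ideal.pow_right_mono h1 N).trans (Ideal.le_comap_pow _ N)
    exact h2 hr
  have h3 : ∀ N : ℕ, σ s - s ∈ I ⊔ maximalIdeal R ^ N := by
    intro N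
    obtain ⟨t, ht, h4⟩ := approx x hx hk N s
    have e : σ s - s = (σ t - t) + (σ (s - t) - (s - t)) := by rw [map_sub]; ring
    rw [e]
    exact add_mem (Ideal.mem_sup_left (h0 t ht))
      (Ideal.mem_sup_right (sub_mem (hpow N _ h4) h4))
  by_cases hI' : I = ⊤
  · rw [hI']; trivial
  have h5 := Ideal.iInf_pow_smul_eq_bot_of_isLocalRing (M := R ⧸ I) (maximalIdeal R)
    (Ideal.IsPrime.ne_top inferInstance)
  rw [← Ideal.Quotient.eq_zero_iff_mem, ← Submodule.mem_bot R, ← h5, Submodule.mem_iInf]
  intro N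
  obtain ⟨a, ha, b, hb, e⟩ := Submodule.mem_sup.1 (h3 N)
  rw [← e, map_add, Ideal.Quotient.eq_zero_iff_mem.2 ha, zero_add]
  have : (Ideal.Quotient.mk I) b = b • (1 : R ⧸ I) := by
    rw [Algebra.smul_def, mul_one]; rfl
  rw [this]
  exact Submodule.smul_mem_smul hb trivial

theorem main_diag [IsAlgClosed k] (x : ι → R) (hx : maximalIdeal R = Ideal.span (Set.range x))
    (hk : ∀ r : R, ∃ c : k, r - algebraMap k R c ∈ maximalIdeal R) (hg : Good x)
    (σ : R →ₐ[k] R) (σm : ∀ r ∈ maximalIdeal R, σ r ∈ maximalIdeal R) (z : ι → k)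
    (f : ι → R) (hf : Sop f) (sx : ∀ i, σ (x i) = z i • x i) (sf : ∀ i, σ (f i) = z i • f i) :
    tr σ (Ideal.span (Set.range f)) = Module.finrank k
      (R ⧸ (Ideal.span (Set.range f) ⊔ Ideal.span {s | ∃ r, s = σ r - r})) := by
  classical
  have div : ∀ (I : Ideal R) (i : ι) (r : R), z i ≠ 1 → z i • r - r ∈ I → r ∈ I := by
    intro I i r hz h
    have := Submodule.smul_of_tower_mem I (z i - 1)⁻¹ h
    rwa [show z i • r - r = (z i - 1) • r by rw [sub_smul, one_smul], smul_smul,
      inv_mul_cancel₀ (sub_ne_zero.2 hz), one_smul] at this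
  let b : ι → R := fun i => if z i = 1 then f i else x i
  have hb : ∀ I : Ideal R, (∀ i, b i ∈ I) ↔ (∀ i, f i ∈ I) ∧ ∀ r, σ r - r ∈ I := by
    intro I
    constructor
    · intro h
      have h1 : ∀ r, σ r - r ∈ I := fix x hx hk σ σm I fun i => by
        by_cases hz : z i = 1
        · rw [sx, hz, one_smul, sub_self]; exact zero_mem _
        · have hxi : x i ∈ I := by simpa [b, hz] using h i
          rw [sx]
          exact sub_mem (Submodule.smul_of_tower_mem _ _ hxi) hxi
      refine ⟨fun i => ?_, h1⟩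
      by_cases hz : z i = 1
      · simpa [b, hz] using h i
      · refine div I i _ hz ?_
        rw [← sf]
        exact h1 _
    · rintro ⟨h1, h2⟩ i
      by_cases hz : z i = 1
      · simpa [b, hz] using h1 i
      · have : x i ∈ I := div I i _ hz (by rw [← sx]; exact h2 _)
        simpa [b, hz] using this
  have xm : ∀ i, x i ∈ maximalIdeal R := fun i => hx ▸ Ideal.subset_span ⟨i, rfl⟩
  have sb : Sop b := ⟨fun i => by
    by_cases hz : z i = 1
    · simpa only [b, hz, if_true] using hf.1 i
    · simpa only [b, hz, if_false] using xm i,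
    fun I hI h => hf.2 I hI ((hb I).1 h).1⟩
  have e2 : Ideal.span (Set.range f) ⊔ Ideal.span {s | ∃ r, s = σ r - r} =
      Ideal.span (Set.range b) :=
    eq_of_forall_ge_iff fun I => by
      rw [sup_le_iff, Ideal.span_le, Ideal.span_le, Ideal.span_le, Set.range_subset_iff,
        Set.range_subset_iff]
      refine Iff.trans (and_congr Iff.rfl ?_) (hb I).symm
      constructor
      · intro h r; exact h ⟨r, rfl⟩
      · rintro h _ ⟨r, rfl⟩; exact h r
  have wb : ∀ i, σ (b i) = z i • b i := fun i => by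
    by_cases hz : z i = 1
    · simpa only [b, hz, if_true] using (by rw [sf, hz] : σ (f i) = (1 : k) • f i)
    · simpa only [b, hz, if_false] using sx i
  rw [e2, tr_sop x hx hk hg σ z hf sb sf wb fun i hz => by simp [b, hz]]
  have pb : ∀ P : Ideal R, P.IsPrime → Ideal.span (Set.range b) ≤ P → P = maximalIdeal R :=
    fun I hI h => sb.2 I hI fun i => h (Ideal.subset_span ⟨i, rfl⟩)
  have := fin_quot x hx hk pb
  have h0 := ((hb (Ideal.span (Set.range b))).1 fun i => Ideal.subset_span ⟨i, rfl⟩).2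
  have st : Ideal.span (Set.range b) ≤ (Ideal.span (Set.range b)).comap σ := by
    rw [Ideal.span_le, Set.range_subset_iff]
    intro i
    have hi : b i ∈ Ideal.span (Set.range b) := Ideal.subset_span ⟨i, rfl⟩
    rw [SetLike.mem_coe, Ideal.mem_comap, wb]
    exact Submodule.smul_of_tower_mem _ _ hi
  unfold tr
  rw [dif_pos st, AlgHom.ext_of_adjoin_eq_top (adj_top x hx hk pb)
    (φ₁ := Ideal.quotientMapₐ _ σ st) (φ₂ := AlgHom.id k _) (by
      rintro _ ⟨i, rfl⟩
      exact Ideal.Quotient.eq.2 (h0 _))]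
  exact LinearMap.trace_id k _

/-- the coordinates are linearly independent modulo the square of the maximal ideal -/
theorem indep (x : ι → R) (hx : maximalIdeal R = Ideal.span (Set.range x)) (hg : Good x)
    (c : ι → k) (h : ∑ j, c j • x j ∈ maximalIdeal R ^ 2) (i : ι) : c i = 0 := by
  by_contra hc
  have xm : ∀ i, x i ∈ maximalIdeal R := fun i => hx ▸ Ideal.subset_span ⟨i, rfl⟩
  have h1 : maximalIdeal R ≤ J x i ⊔ maximalIdeal R * maximalIdeal R := by
    conv_lhs => rw [hx]
    rw [Ideal.span_le, Set.range_subset_iff]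
    intro j
    by_cases hj : j = i
    · subst hj
      have e : x j = (c j)⁻¹ • ((∑ l, c l • x l) - ∑ l ∈ Finset.univ.erase j, c l • x l) := by
        rw [← Finset.add_sum_erase _ _ (Finset.mem_univ j), add_sub_cancel_right, smul_smul,
          inv_mul_cancel₀ hc, one_smul]
      rw [SetLike.mem_coe, e]
      refine Submodule.smul_of_tower_mem _ _ (sub_mem ?_ ?_)
      · refine Ideal.mem_sup_right ?_
        rwa [← pow_two]
      · refine Ideal.mem_sup_left (Ideal.sum_mem _ fun l hl => ?_)
        exact Submodule.smul_of_tower_mem _ _ (J_le.1 le_rfl l (Finset.ne_of_mem_erase hl))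
    · exact Ideal.mem_sup_left (J_le.1 le_rfl j hj)
  have h2 : maximalIdeal R ≤ J x i := by
    refine Submodule.le_of_le_smul_of_le_jacobson_bot (I := maximalIdeal R)
      (IsNoetherian.noetherian _) (maximalIdeal_le_jacobson _) ?_
    simpa [smul_eq_mul] using h1
  have h3 := ((good_iff xm i).1 hg).2 1 (by rw [mul_one]; exact h2 (xm i))
  have h4 : J x i ≤ maximalIdeal R := J_le.2 fun j _ => xm j
  exact (Ideal.ne_top_iff_one _).1 (Ideal.IsPrime.ne_top inferInstance) (h4 h3)

omit [IsNoetherianRing R] in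
theorem pow_mem_max (σ : R →ₐ[k] R) (σm : ∀ r ∈ maximalIdeal R, σ r ∈ maximalIdeal R) (N : ℕ)
    (r : R) (hr : r ∈ maximalIdeal R ^ N) : σ r ∈ maximalIdeal R ^ N := by
  have h1 : maximalIdeal R ≤ (maximalIdeal R).comap σ := σm
  exact ((Ideal.pow_right_mono h1 N).trans (Ideal.le_comap_pow _ N)) hr

/-- coordinates which are eigenvectors -/
theorem eigencoords [IsAlgClosed k] (x : ι → R) (hx : maximalIdeal R = Ideal.span (Set.range x))
    (hg : Good x) (σ : R →ₐ[k] R) (σm : ∀ r ∈ maximalIdeal R, σ r ∈ maximalIdeal R) {m : ℕ}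
    (hm : (m : k) ≠ 0) (hσ : ∀ r, σ^[m] r = r) (A : Matrix ι ι k)
    (hA : ∀ i, σ (x i) - act A x i ∈ maximalIdeal R ^ 2) :
    ∃ (P Q : Matrix ι ι k) (z : ι → k) (y : ι → R), Q * P = 1 ∧ P * A = diagonal z * P ∧
      (∀ i, σ (y i) = z i • y i) ∧ maximalIdeal R = Ideal.span (Set.range y) := by
  classical
  have xm : ∀ i, x i ∈ maximalIdeal R := fun i => hx ▸ Ideal.subset_span ⟨i, rfl⟩
  have act_sub : ∀ (M : Matrix ι ι k) (v w : ι → R) (i : ι),
      act M (fun j => v j - w j) i = act M v i - act M w i := fun M v w i => by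
    simp [act, smul_sub]
  have act_map : ∀ (M : Matrix ι ι k) (v : ι → R) (i : ι),
      σ (act M v i) = act M (fun j => σ (v j)) i := fun M v i => by
    simp [act, map_sum, map_smul]
  -- powers
  have hpow : ∀ (s : ℕ) (i : ι), σ^[s] (x i) - act (A ^ s) x i ∈ maximalIdeal R ^ 2 := by
    intro s
    induction s with
    | zero =>
      intro i
      rw [pow_zero, act_one, Function.iterate_zero_apply, sub_self]
      exact zero_mem _
    | succ s ih =>
      intro i
      rw [Function.iterate_succ_apply']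
      have e : σ (σ^[s] (x i)) - act (A ^ (s + 1)) x i =
          σ (σ^[s] (x i) - act (A ^ s) x i) +
            act (A ^ s) (fun j => σ (x j) - act A x j) i := by
        rw [map_sub, act_map, act_sub, pow_succ, act_mul]
        ring
      rw [e]
      exact add_mem (pow_mem_max σ σm 2 _ (ih i)) (act_mem _ hA i)
  have hAm : A ^ m = 1 := by
    ext i j
    have h1 := hpow m i
    rw [hσ] at h1
    have h2 : ∑ j, ((1 : Matrix ι ι k) - A ^ m) i j • x j ∈ maximalIdeal R ^ 2 := by
      have e : ∑ j, ((1 : Matrix ι ι k) - A ^ m) i j • x j = x i - act (A ^ m) x i := by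
        simp only [Matrix.sub_apply, sub_smul, Finset.sum_sub_distrib]
        congr 1
        exact congrFun (act_one x) i
      rw [e]
      exact h1
    have h3 := indep x hx hg (fun j => ((1 : Matrix ι ι k) - A ^ m) i j) h2 j
    simp only [Matrix.sub_apply] at h3
    exact (sub_eq_zero.1 h3).symm
  obtain ⟨P, Q, z, hQ, hP⟩ := diag' A hm hAm
  have hQ' : P * Q = 1 := mul_eq_one_comm.1 hQ
  have hz : ∀ i, z i ^ m = 1 := by
    have h1 : ∀ s : ℕ, P * A ^ s = diagonal z ^ s * P := by
      intro s
      induction s with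
      | zero => simp
      | succ s ih => rw [pow_succ, ← mul_assoc, ih, mul_assoc, hP, ← mul_assoc, ← pow_succ]
    have h2 : diagonal z ^ m = (1 : Matrix ι ι k) := by
      have := h1 m
      rw [hAm, mul_one] at this
      calc diagonal z ^ m = diagonal z ^ m * (P * Q) := by rw [hQ', mul_one]
        _ = P * Q := by rw [← mul_assoc, ← this]
        _ = 1 := hQ'
    intro i
    rw [diagonal_pow] at h2
    have := congrFun (congrFun h2 i) i
    simpa using this
  have hm0 : m ≠ 0 := fun h => hm (by rw [h, Nat.cast_zero])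
  have hz0 : ∀ i, z i ≠ 0 := fun i h => by
    have := hz i
    rw [h, zero_pow hm0] at this
    exact zero_ne_one this
  have hu : ∀ i, σ (act P x i) - z i • act P x i ∈ maximalIdeal R ^ 2 := by
    intro i
    have e : σ (act P x i) - z i • act P x i = act P (fun j => σ (x j) - act A x j) i := by
      rw [act_sub, act_map, ← act_diag z, ← act_mul, ← hP, act_mul]
    rw [e]
    exact act_mem _ hA i
  have hum : ∀ i, act P x i ∈ maximalIdeal R := act_mem _ xm
  -- averaging
  let y : ι → R := fun i => (m : k)⁻¹ • ∑ s ∈ Finset.range m, (z i)⁻¹ ^ s • σ^[s] (act P x i)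
  have hy1 : ∀ i, σ (y i) = z i • y i := by
    intro i
    simp only [y, map_smul, map_sum]
    rw [smul_comm (z i)]
    congr 1
    rw [Finset.smul_sum]
    have e1 : ∀ s, (z i)⁻¹ ^ s • σ (σ^[s] (act P x i)) =
        z i • ((z i)⁻¹ ^ (s + 1) • σ^[s + 1] (act P x i)) := by
      intro s
      rw [Function.iterate_succ_apply', smul_smul, pow_succ, mul_left_comm, mul_inv_cancel₀ (hz0 i),
        mul_one]
    rw [Finset.sum_congr rfl fun s _ => e1 s, ← Finset.smul_sum, ← Finset.smul_sum]
    congr 1
    have e2 := Finset.sum_range_succ (fun s => (z i)⁻¹ ^ s • σ^[s] (act P x i)) m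
    rw [Finset.sum_range_succ'] at e2
    simp only [pow_zero, Function.iterate_zero_apply, one_smul, inv_pow, hz, hσ, inv_one] at e2
    simp only [inv_pow]
    exact add_right_cancel e2
  have hy2 : ∀ i, y i - act P x i ∈ maximalIdeal R ^ 2 := by
    intro i
    have h1 : ∀ s : ℕ, (z i)⁻¹ ^ s • σ^[s] (act P x i) - act P x i ∈ maximalIdeal R ^ 2 := by
      intro s
      induction s with
      | zero => simp
      | succ s ih =>
        have e : (z i)⁻¹ ^ (s + 1) • σ^[s + 1] (act P x i) - act P x i =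
            (z i)⁻¹ • σ ((z i)⁻¹ ^ s • σ^[s] (act P x i) - act P x i) +
              (z i)⁻¹ • (σ (act P x i) - z i • act P x i) := by
          rw [Function.iterate_succ_apply', map_sub, map_smul, smul_sub, smul_sub, smul_smul,
            smul_smul, inv_mul_cancel₀ (hz0 i), one_smul, pow_succ, mul_comm ((z i)⁻¹ ^ s)]
          ring
        rw [e]
        exact add_mem (Submodule.smul_of_tower_mem _ _ (pow_mem_max σ σm 2 _ ih))
          (Submodule.smul_of_tower_mem _ _ (hu i))
    have e : y i - act P x i = (m : k)⁻¹ • ∑ s ∈ Finset.range m,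
        ((z i)⁻¹ ^ s • σ^[s] (act P x i) - act P x i) := by
      simp only [y, Finset.sum_sub_distrib, smul_sub, Finset.sum_const, Finset.card_range]
      congr 1
      rw [← Nat.cast_smul_eq_nsmul k, smul_smul, inv_mul_cancel₀ hm, one_smul]
    rw [e]
    exact Submodule.smul_of_tower_mem _ _ (Ideal.sum_mem _ fun s _ => h1 s)
  have hym : ∀ i, y i ∈ maximalIdeal R := fun i => by
    have := add_mem (Ideal.pow_le_self two_ne_zero (hy2 i)) (hum i)
    simpa using this
  refine ⟨P, Q, z, y, hQ, hP, hy1, le_antisymm ?_ (Ideal.span_le.2 (Set.range_subset_iff.2 hym))⟩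
  refine Submodule.le_of_le_smul_of_le_jacobson_bot (I := maximalIdeal R)
      (IsNoetherian.noetherian _) (maximalIdeal_le_jacobson _) ?_
  rw [smul_eq_mul, ← pow_two]
  conv_lhs => rw [hx]
  rw [Ideal.span_le, Set.range_subset_iff]
  have h1 : ∀ i, act P x i ∈ Ideal.span (Set.range y) ⊔ maximalIdeal R ^ 2 := fun i => by
    have e : act P x i = y i - (y i - act P x i) := by ring
    rw [e]
    exact sub_mem (Ideal.mem_sup_left (Ideal.subset_span ⟨i, rfl⟩)) (Ideal.mem_sup_right (hy2 i))
  exact (act_iff hQ x _).1 h1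

theorem good_of_ofFn {n : ℕ} (x : Fin n → R) (hm : ∀ i, x i ∈ maximalIdeal R)
    (h : IsWeaklyRegular R (List.ofFn x)) : Good x := by
  unfold Good
  refine isWeaklyRegular_of_perm_of_subset_maximalIdeal h ?_ ?_
  · rw [List.ofFn_eq_map]
    refine List.Perm.map _ ?_
    rw [List.perm_ext_iff_of_nodup (List.nodup_finRange n) (Finset.nodup_toList _)]
    intro a
    simp
  · intro r hr
    obtain ⟨i, rfl⟩ := (List.mem_ofFn' _ _).1 hr
    exact hm i

/-- **Trace on the local algebra of an equivariant germ on a smooth germ.** -/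
theorem result {k : Type} [Field k] [IsAlgClosed k] {R : Type} [CommRing R] [IsLocalRing R]
    [IsNoetherianRing R] [Algebra k R]
    (hk : ∀ r : R, ∃ c : k, r - algebraMap k R c ∈ maximalIdeal R)
    {n : ℕ} (x : Fin n → R) (hx : maximalIdeal R = Ideal.span (Set.range x))
    (hreg : IsWeaklyRegular R (List.ofFn x))
    {G : Type} [Group G] [Finite G] (hG : (Nat.card G : k) ≠ 0) (φ : G →* (R ≃ₐ[k] R))
    (f : Fin n → R) (hf : ∀ i, f i ∈ maximalIdeal R)
    (hfin : Module.Finite k (R ⧸ Ideal.span (Set.range f)))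
    (A B : G → Matrix (Fin n) (Fin n) k)
    (hA : ∀ g i, φ g (x i) - ∑ j, A g i j • x j ∈ maximalIdeal R ^ 2)
    (hB : ∀ g i, φ g (f i) = ∑ j, B g i j • f j)
    (hAB : ∀ g, ∃ P Q : Matrix (Fin n) (Fin n) k, P * Q = 1 ∧ B g * P = P * A g) (g : G)
    (T : (R ⧸ Ideal.span (Set.range f)) →ₗ[k] (R ⧸ Ideal.span (Set.range f)))
    (hT : ∀ r : R, T (Ideal.Quotient.mk _ r) = Ideal.Quotient.mk _ (φ g r)) :
    LinearMap.trace k (R ⧸ Ideal.span (Set.range f)) T =
      (Module.finrank k (R ⧸ (Ideal.span (Set.range f) ⊔ Ideal.span {s | ∃ r, s = φ g r - r})) :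
        k) := by
  classical
  have xm : ∀ i, x i ∈ maximalIdeal R := fun i => hx ▸ Ideal.subset_span ⟨i, rfl⟩
  have hg := good_of_ofFn x xm hreg
  let σ : R →ₐ[k] R := (φ g : R →ₐ[k] R)
  have hσe : ∀ r, σ r = φ g r := fun r => rfl
  have σm : ∀ r ∈ maximalIdeal R, σ r ∈ maximalIdeal R := by
    intro r hr
    rw [mem_maximalIdeal, mem_nonunits_iff] at hr ⊢
    intro h
    refine hr ?_
    have := h.map ((φ g).symm : R →ₐ[k] R)
    simpa [hσe] using this
  have hσ : ∀ r, σ^[orderOf g] r = r := by
    have h1 : ∀ (s : ℕ) (r : R), σ^[s] r = φ (g ^ s) r := by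
      intro s
      induction s with
      | zero => intro r; simp
      | succ s ih =>
        intro r
        rw [Function.iterate_succ_apply', ih, hσe, pow_succ', map_mul]
        rfl
    intro r
    rw [h1, pow_orderOf_eq_one, map_one]
    rfl
  have hm : ((orderOf g : ℕ) : k) ≠ 0 := by
    obtain ⟨c, hc⟩ := orderOf_dvd_natCard g
    intro h
    exact hG (by rw [hc, Nat.cast_mul, h, zero_mul])
  obtain ⟨P, Q, z, y, hQ, hP, hy, hyx⟩ := eigencoords x hx hg σ σm hm hσ (A g) (hA g)
  obtain ⟨P', Q', hPQ', hBA⟩ := hAB g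
  have hsop : ∀ c : Fin n → R, maximalIdeal R = Ideal.span (Set.range c) → Sop c := fun c hc =>
    ⟨fun i => hc ▸ Ideal.subset_span ⟨i, rfl⟩, fun I hI h =>
      le_antisymm (le_maximalIdeal hI.ne_top) (hc ▸ Ideal.span_le.2 (Set.range_subset_iff.2 h))⟩
  have hfs : Sop f := by
    refine ⟨hf, fun I hI h => ?_⟩
    have le : Ideal.span (Set.range f) ≤ I := Ideal.span_le.2 (Set.range_subset_iff.2 h)
    have : Module.Finite k (R ⧸ I) :=
      Module.Finite.of_surjective (Ideal.Quotient.factorₐ k le).toLinearMap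
        (Ideal.Quotient.factor_surjective le)
    have := IsArtinianRing.of_finite k (R ⧸ I)
    exact IsLocalRing.eq_maximalIdeal
      (Ideal.Quotient.maximal_of_isField _ (IsArtinianRing.isField_of_isDomain _))
  have hgy : Good y := good_of_sop (k := k) (hsop x hx) (hsop y hyx) hg
  -- change of basis for f
  have hQP' : Q' * P' = 1 := mul_eq_one_comm.1 hPQ'
  have hQ' : P * Q = 1 := mul_eq_one_comm.1 hQ
  have hL : (P' * Q) * (P * Q') = 1 := by
    calc (P' * Q) * (P * Q') = P' * (Q * P) * Q' := by simp only [mul_assoc]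
      _ = 1 := by rw [hQ, mul_one, hPQ']
  have hD : (P * Q') * B g = diagonal z * (P * Q') := by
    have h1 : Q' * B g = A g * Q' := by
      calc Q' * B g = Q' * (B g * P') * Q' := by
            rw [mul_assoc, mul_assoc, hPQ', mul_one]
        _ = (Q' * P') * A g * Q' := by rw [hBA, ← mul_assoc]
        _ = A g * Q' := by rw [hQP', one_mul]
    rw [mul_assoc, h1, ← mul_assoc, hP, mul_assoc]
  have sf : ∀ i, σ (act (P * Q') f i) = z i • act (P * Q') f i := fun i => by
    calc σ (act (P * Q') f i) = act (P * Q') (act (B g) f) i := by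
          simp only [act, map_sum, map_smul, hσe, hB]
      _ = act (P * Q' * B g) f i := (congrFun (act_mul (P * Q') (B g) f) i).symm
      _ = act (diagonal z * (P * Q')) f i := by rw [hD]
      _ = act (diagonal z) (act (P * Q') f) i := congrFun (act_mul (diagonal z) (P * Q') f) i
      _ = z i • act (P * Q') f i := act_diag z _ i
  have e1 : Ideal.span (Set.range f) = Ideal.span (Set.range (act (P * Q') f)) :=
    eq_of_forall_ge_iff fun I => by
      simp only [Ideal.span_le, Set.range_subset_iff, SetLike.mem_coe, act_iff hL]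
  have key := main_diag y hyx hk hgy σ σm z (act (P * Q') f)
    ⟨act_mem _ hf, fun I hI h => hfs.2 I hI ((act_iff hL f I).1 h)⟩ hy sf
  rw [← e1] at key
  refine Eq.trans ?_ key
  have st : Ideal.span (Set.range f) ≤ (Ideal.span (Set.range f)).comap σ := by
    rw [Ideal.span_le, Set.range_subset_iff]
    intro i
    rw [SetLike.mem_coe, Ideal.mem_comap, hσe, hB]
    exact Ideal.sum_mem _ fun j _ => Submodule.smul_of_tower_mem _ _
      (Ideal.subset_span (Set.mem_range_self j))
  unfold tr
  rw [dif_pos st]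
  congr 1
  refine LinearMap.ext fun u => ?_
  obtain ⟨r, rfl⟩ := Ideal.Quotient.mk_surjective u
  rw [hT]
  rfl

end Pool.Agent.Results.MP_80eea4_gt.SmoothGerms
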